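import Mathlib

/-!
# Finite centralizer and almost all `⟨a, a ^ g⟩` nilpotent: locally finite
-/

set_option autoImplicit false

namespace Pool.Agent.MP_904310

open Subgroup

open scoped Pointwise

/-- every finite subset of `N` generates a finite subgroup -/
def LFs {G : Type*} [Group G] (N : Subgroup G) : Prop :=
  ∀ s : Set G, s.Finite → s ⊆ (N : Set G) → ((closure s : Subgroup G) : Set G).Finite

/-- at most `m` classes modulo `N` commute with `a` modulo `N` -/
def Few {G : Type*} [Group G] (a : G) (m : ℕ) (N : Subgroup G) : Prop :=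
  ∀ f : Fin (m + 1) → G, (∀ i, f i * a * (f i)⁻¹ * a⁻¹ ∈ N) → ∃ i j, i ≠ j ∧ (f i)⁻¹ * f j ∈ N

theorem exists_mem_of_chain {G : Type*} [Group G] {c : Set (Subgroup G)}
    (hc : IsChain (· ≤ ·) c) (hne : c.Nonempty) {s : Set G} (hs : s.Finite)
    (hsub : s ⊆ ((sSup c : Subgroup G) : Set G)) : ∃ N ∈ c, s ⊆ (N : Set G) := by
  induction s, hs using Set.Finite.induction_on with
  | empty =>
    obtain ⟨N, hN⟩ := hne
    exact ⟨N, hN, Set.empty_subset _⟩
  | insert _ _ ih =>
    obtain ⟨N, hN, hNs⟩ := ih ((Set.subset_insert _ _).trans hsub)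
    have hx := hsub (Set.mem_insert _ _)
    rw [SetLike.mem_coe, mem_sSup_of_directedOn hne hc.directedOn] at hx
    obtain ⟨M, hM, hxM⟩ := hx
    rcases hc.total hN hM with h | h
    · exact ⟨M, hM, Set.insert_subset hxM (hNs.trans h)⟩
    · exact ⟨N, hN, Set.insert_subset (h hxM) hNs⟩

/-- extension of a locally finite group by a finite group -/
theorem LFs.of_relIndex {G : Type*} [Group G] {N K : Subgroup G} (hN : LFs N)
    (hNK : N.relIndex K ≠ 0) : LFs K := by
  intro s hs hsK
  set H : Subgroup G := closure s with hH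
  have hHK : H ≤ K := (closure_le K).2 hsK
  have hfg : Group.FG H := (Group.fg_iff_subgroup_fg H).2 ((Subgroup.fg_iff H).2 ⟨s, rfl, hs⟩)
  have hidx : N.relIndex H ≠ 0 := fun h => hNK (Subgroup.relIndex_eq_zero_of_le_right hHK h)
  have hfi : (N.subgroupOf H).FiniteIndex := ⟨hidx⟩
  have hfg2 : Group.FG (N.subgroupOf H) := Subgroup.fg_of_index_ne_zero _
  obtain ⟨t, ht, htf⟩ := (Subgroup.fg_iff _).1
    ((Group.fg_iff_subgroup_fg (N.subgroupOf H)).1 hfg2)
  have hmap : (N.subgroupOf H).map H.subtype = closure (H.subtype '' t) := by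
    rw [← ht, MonoidHom.map_closure]
  have hfin : (((N.subgroupOf H).map H.subtype : Subgroup G) : Set G).Finite := by
    rw [hmap]
    refine hN _ (htf.image _) ?_
    rintro _ ⟨x, hx, rfl⟩
    have : x ∈ N.subgroupOf H := by rw [← ht]; exact subset_closure hx
    exact this
  have hfin2 : Finite (N.subgroupOf H) := by
    have : (Subtype.val ⁻¹' (((N.subgroupOf H).map H.subtype : Subgroup G) : Set G) :
        Set H).Finite := hfin.preimage Subtype.val_injective.injOn
    have h2 : ((N.subgroupOf H : Subgroup H) : Set H).Finite := by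
      refine this.subset ?_
      intro x hx
      exact ⟨x, hx, rfl⟩
    exact h2.to_subtype
  have : Finite H := by
    have h1 := Subgroup.card_mul_index (N.subgroupOf H)
    apply Nat.finite_of_card_ne_zero
    rw [← h1]
    exact mul_ne_zero Nat.card_pos.ne' hidx
  exact Set.toFinite _

/-- `C_{G/K}(a)` is not larger than `C_G(a)` when `K` is finite -/
theorem Few.of_finite {G : Type*} [Group G] {a : G} {m : ℕ} (h : Few a m (⊥ : Subgroup G))
    (K : Subgroup G) [hKn : K.Normal] [Finite K] : Few a m K := by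
  classical
  intro f hf
  by_contra hcon
  push Not at hcon
  have := Fintype.ofFinite K
  have hmem : ∀ p : Fin (m + 1) × K, (f p.1 * p.2) * a * (f p.1 * p.2)⁻¹ * a⁻¹ ∈ K := by
    rintro ⟨i, k⟩
    have e : (f i * (k : G)) * a * (f i * k)⁻¹ * a⁻¹ =
        (f i * (k * (a * (k : G)⁻¹ * a⁻¹)) * (f i)⁻¹) * (f i * a * (f i)⁻¹ * a⁻¹) := by group
    show (f i * (k : G)) * a * (f i * k)⁻¹ * a⁻¹ ∈ K
    rw [e]
    refine K.mul_mem (hKn.conj_mem _ (K.mul_mem k.2 (hKn.conj_mem _ (K.inv_mem k.2) _)) _) (hf i)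
  have hinj : Function.Injective (fun p : Fin (m + 1) × K => f p.1 * (p.2 : G)) := by
    rintro ⟨i, k⟩ ⟨j, l⟩ hij
    have hij' : f i * (k : G) = f j * (l : G) := hij
    have e : (f i)⁻¹ * f j = (k : G) * (l : G)⁻¹ := by
      have : (f i)⁻¹ * (f j * (l : G)) * (l : G)⁻¹ = (f i)⁻¹ * (f i * (k : G)) * (l : G)⁻¹ := by
        rw [hij']
      simpa [mul_assoc] using this
    have hKm : (f i)⁻¹ * f j ∈ K := by
      rw [e]; exact K.mul_mem k.2 (K.inv_mem l.2)
    have hij2 : i = j := by
      by_contra hne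
      exact hcon i j hne hKm
    subst hij2
    have : (k : G) = l := mul_left_cancel hij'
    rw [Subtype.ext this]
  obtain ⟨y, -, hy⟩ := Finset.exists_le_card_fiber_of_mul_le_card_of_maps_to
    (s := (Finset.univ : Finset (Fin (m + 1) × K))) (t := (Finset.univ : Finset K))
    (f := fun p => (⟨_, hmem p⟩ : K)) (n := m + 1) (fun _ _ => Finset.mem_univ _)
    Finset.univ_nonempty (by simp [Finset.card_univ, mul_comm])
  obtain ⟨T, hT, hTc⟩ := Finset.exists_subset_card_eq hy
  have e := T.equivFinOfCardEq hTc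
  set g : Fin (m + 1) → G := fun i => f (e.symm i).1.1 * ((e.symm i).1.2 : G) with hg
  have hgval : ∀ i, g i * a * (g i)⁻¹ * a⁻¹ = (y : G) := by
    intro i
    have h1 := hT (e.symm i).2
    rw [Finset.mem_filter] at h1
    exact congrArg Subtype.val h1.2
  have hginj : Function.Injective g := by
    intro i j hij
    have := hinj hij
    exact e.symm.injective (Subtype.ext this)
  obtain ⟨i, j, hij, hbot⟩ := h (fun i => (g 0)⁻¹ * g i) (by
    intro i
    rw [mem_bot]
    have h1 := hgval 0
    have h2 := hgval i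
    have h3 : g i * a * (g i)⁻¹ = g 0 * a * (g 0)⁻¹ := by
      apply mul_right_cancel (b := a⁻¹)
      rw [h1, h2]
    calc (g 0)⁻¹ * g i * a * ((g 0)⁻¹ * g i)⁻¹ * a⁻¹
        = (g 0)⁻¹ * (g i * a * (g i)⁻¹) * g 0 * a⁻¹ := by group
      _ = 1 := by rw [h3]; group)
  rw [mem_bot] at hbot
  apply hij
  apply hginj
  have : ((g 0)⁻¹ * g i)⁻¹ * ((g 0)⁻¹ * g j) = (g i)⁻¹ * g j := by group
  rw [this] at hbot
  exact (inv_mul_eq_one.1 hbot)

open scoped IsMulCommutative in
/-- a finitely generated group with centre of finite index, generated by elements of finite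
order, is finite -/
theorem finite_of_center {M : Type*} [Group M] [hZ : (center M).FiniteIndex] [Group.FG M]
    {T : Set M} (hT : closure T = ⊤) (hTo : ∀ t ∈ T, IsOfFinOrder t) : Finite M := by
  have h1 : ∀ g : M, IsOfFinOrder (MonoidHom.transferCenterPow M g) := by
    have : (closure T).map (MonoidHom.transferCenterPow M) ≤
        CommGroup.torsion (center M) := by
      rw [MonoidHom.map_closure, closure_le]
      rintro _ ⟨t, ht, rfl⟩
      exact (MonoidHom.transferCenterPow M).isOfFinOrder (hTo t ht)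
    intro g
    exact this ⟨g, by rw [hT]; trivial, rfl⟩
  have h2 : ∀ g : M, IsOfFinOrder g := by
    intro g
    have h3 := (center M).subtype.isOfFinOrder (h1 g)
    have h4 : (center M).subtype (MonoidHom.transferCenterPow M g) = g ^ (center M).index := rfl
    rw [h4] at h3
    exact (isOfFinOrder_pow.1 h3).resolve_right hZ.index_ne_zero
  have hZfg : Group.FG (center M) := Subgroup.fg_of_index_ne_zero _
  have hZfin : Finite (center M) := by
    apply CommGroup.finite_of_fg_isMulTorsion
    intro z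
    exact ((center M).subtype_injective.isOfFinOrder_iff).1 (h2 z)
  apply Nat.finite_of_card_ne_zero
  rw [← Subgroup.card_mul_index (center M)]
  exact mul_ne_zero Nat.card_pos.ne' hZ.index_ne_zero

/-- Dietzmann: an element of finite order whose centralizer has finite index has a finite normal
closure -/
theorem finite_normalClosure {G : Type*} [Group G] (c : G) (hc : IsOfFinOrder c)
    (hfi : (centralizer ({c} : Set G)).FiniteIndex) : Finite (normalClosure ({c} : Set G)) := by
  classical
  have hTfin : (Group.conjugatesOfSet ({c} : Set G)).Finite := by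
    have h1 : Group.conjugatesOfSet ({c} : Set G) =
        Set.range (fun q : G ⧸ centralizer ({c} : Set G) => q.out * c * (q.out)⁻¹) := by
      ext x
      rw [Group.mem_conjugatesOfSet_iff]
      simp only [Set.mem_singleton_iff, exists_eq_left, Set.mem_range]
      constructor
      · intro h
        rw [isConj_iff] at h
        obtain ⟨g, rfl⟩ := h
        refine ⟨(g : G ⧸ centralizer ({c} : Set G)), ?_⟩
        obtain ⟨h, hh⟩ := QuotientGroup.mk_out_eq_mul (centralizer ({c} : Set G)) g
        rw [hh]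
        have h2 := mem_centralizer_singleton_iff.1 h.2
        rw [mul_inv_rev]
        calc g * (h : G) * c * ((h : G)⁻¹ * g⁻¹) = g * ((h : G) * c) * (h : G)⁻¹ * g⁻¹ := by group
          _ = g * (c * (h : G)) * (h : G)⁻¹ * g⁻¹ := by rw [h2]
          _ = g * c * g⁻¹ := by group
      · rintro ⟨q, rfl⟩
        exact isConj_iff.2 ⟨_, rfl⟩
    rw [h1]
    exact Set.finite_range _
  set T := Group.conjugatesOfSet ({c} : Set G) with hT
  have hM : normalClosure ({c} : Set G) = closure T := rfl
  set M := closure T with hMdef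
  have hcent : (centralizer (M : Set G)).FiniteIndex := by
    refine finiteIndex_of_le (H := (centralizer ({c} : Set G)).normalCore) ?_
    rw [hMdef, centralizer_closure]
    intro x hx
    rw [mem_centralizer_iff]
    intro t ht
    rw [hT, Group.mem_conjugatesOfSet_iff] at ht
    obtain ⟨d, hd, ht⟩ := ht
    rw [Set.mem_singleton_iff] at hd
    subst hd
    rw [isConj_iff] at ht
    obtain ⟨g, rfl⟩ := ht
    have h1 := hx g⁻¹
    rw [mem_centralizer_singleton_iff] at h1
    calc g * d * g⁻¹ * x = g * (d * (g⁻¹ * x * g⁻¹⁻¹)) * g⁻¹ := by group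
      _ = g * ((g⁻¹ * x * g⁻¹⁻¹) * d) * g⁻¹ := by rw [h1]
      _ = x * (g * d * g⁻¹) := by group
  rw [hM]
  have hZ : (center M).FiniteIndex := by
    refine finiteIndex_of_le (H := (centralizer (M : Set G)).subgroupOf M) ?_
    intro x hx
    rw [mem_subgroupOf, mem_centralizer_iff] at hx
    rw [mem_center_iff]
    intro y
    exact Subtype.ext (hx y y.2)
  have hfg : Group.FG M := (Group.fg_iff_subgroup_fg M).2 ((Subgroup.fg_iff M).2 ⟨T, rfl, hTfin⟩)
  refine finite_of_center (T := (Subtype.val ⁻¹' T : Set M)) (closure_closure_coe_preimage) ?_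
  rintro ⟨t, htM⟩ ht
  have ht' : t ∈ T := ht
  rw [hT, Group.mem_conjugatesOfSet_iff] at ht'
  obtain ⟨d, hd, ht'⟩ := ht'
  rw [Set.mem_singleton_iff] at hd
  subst hd
  rw [isConj_iff] at ht'
  obtain ⟨g, hg⟩ := ht'
  apply (M.subtype_injective.isOfFinOrder_iff).1
  show IsOfFinOrder t
  rw [← hg]
  have := (MulAut.conj g).toMonoidHom.isOfFinOrder hc
  simpa using this

/-- the key step: an infinite group with a small centralizer and almost all pairs having a common
centralizing element has a nontrivial finite normal subgroup -/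
theorem exists_finite_normal {G : Type*} [Group G] [Infinite G] (a : G)
    (hC : (centralizer ({a} : Set G) : Set G).Finite)
    (hE : {g : G | ¬ ∃ c : G, c ≠ 1 ∧ c * a = a * c ∧ c * (g⁻¹ * a * g) = (g⁻¹ * a * g) * c}.Finite) :
    ∃ K : Subgroup G, K.Normal ∧ Finite K ∧ K ≠ ⊥ := by
  classical
  set E : Finset G := hE.toFinset with hEdef
  set C : Finset G := hC.toFinset with hCdef
  -- index set: pairs `(c, c')` or exceptional elements
  set S : Finset ((G × G) ⊕ G) := ((C.erase 1) ×ˢ C).disjSum E with hS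
  set H : (G × G) ⊕ G → Subgroup G := fun i => Sum.elim (fun p => centralizer ({p.1} : Set G))
    (fun _ => ⊥) i with hH
  set γ : (G × G) ⊕ G → G := fun i => Sum.elim
    (fun p => if h : ∃ x : G, x * p.1 * x⁻¹ = p.2 then h.choose else 1) (fun g => g) i with hγ
  have hcov : ⋃ i ∈ S, γ i • (H i : Set G) = Set.univ := by
    rw [Set.eq_univ_iff_forall]
    intro g
    simp only [Set.mem_iUnion]
    by_cases hg : g ∈ E
    · refine ⟨Sum.inr g, ?_, ?_⟩
      · simp [hS, hg]
      · simp [hγ, hH]
    · have hg2 : ∃ c : G, c ≠ 1 ∧ c * a = a * c ∧ c * (g⁻¹ * a * g) = (g⁻¹ * a * g) * c := by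
        by_contra hcon
        exact hg (by rw [hEdef, Set.Finite.mem_toFinset]; exact hcon)
      obtain ⟨c, hc1, hca, hcg⟩ := hg2
      have hex : ∃ x : G, x * c * x⁻¹ = g * c * g⁻¹ := ⟨g, rfl⟩
      refine ⟨Sum.inl (c, g * c * g⁻¹), ?_, ?_⟩
      · simp only [hS, Finset.inl_mem_disjSum, Finset.mem_product, Finset.mem_erase, hCdef,
          Set.Finite.mem_toFinset, SetLike.mem_coe, mem_centralizer_singleton_iff]
        refine ⟨⟨hc1, hca⟩, ?_⟩
        calc g * c * g⁻¹ * a = g * (c * (g⁻¹ * a * g)) * g⁻¹ := by group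
          _ = g * ((g⁻¹ * a * g) * c) * g⁻¹ := by rw [hcg]
          _ = a * (g * c * g⁻¹) := by group
      · have h1 : γ (Sum.inl (c, g * c * g⁻¹)) = hex.choose := by
          simp only [hγ, Sum.elim_inl]
          rw [dif_pos hex]
        rw [h1]
        have h2 := hex.choose_spec
        set x := hex.choose
        rw [Set.mem_smul_set_iff_inv_smul_mem]
        show x⁻¹ * g ∈ centralizer ({c} : Set G)
        rw [mem_centralizer_singleton_iff]
        calc x⁻¹ * g * c = x⁻¹ * (g * c * g⁻¹) * g := by group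
          _ = x⁻¹ * (x * c * x⁻¹) * g := by rw [h2]
          _ = c * (x⁻¹ * g) := by group
  obtain ⟨k, hk, hfi⟩ := Subgroup.exists_finiteIndex_of_leftCoset_cover hcov
  rcases k with ⟨c, c'⟩ | g
  · rw [hS, Finset.inl_mem_disjSum, Finset.mem_product, Finset.mem_erase] at hk
    have hcC : c ∈ centralizer ({a} : Set G) := by
      have := hk.1.2
      rw [hCdef, Set.Finite.mem_toFinset] at this
      exact this
    have hfo : IsOfFinOrder c := by
      have hfin : Finite (centralizer ({a} : Set G)) := hC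
      have := (centralizer ({a} : Set G)).subtype.isOfFinOrder
        (isOfFinOrder_of_finite (⟨c, hcC⟩ : centralizer ({a} : Set G)))
      exact this
    refine ⟨normalClosure {c}, inferInstance, finite_normalClosure c hfo hfi, ?_⟩
    intro hbot
    have : c ∈ normalClosure ({c} : Set G) := subset_normalClosure (Set.mem_singleton c)
    rw [hbot, mem_bot] at this
    exact hk.1.1 this
  · exfalso
    have h1 : (⊥ : Subgroup G).FiniteIndex := hfi
    have h2 : Finite (G ⧸ (⊥ : Subgroup G)) := inferInstance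
    have h3 : Finite G := Finite.of_equiv _ (QuotientGroup.quotientBot (G := G)).toEquiv
    exact not_finite G

theorem few_bot {G : Type*} [Group G] (a : G) (hC : (centralizer ({a} : Set G) : Set G).Finite) :
    Few a (Nat.card (centralizer ({a} : Set G))) (⊥ : Subgroup G) := by
  classical
  intro f hf
  have : Finite (centralizer ({a} : Set G)) := hC
  have := Fintype.ofFinite (centralizer ({a} : Set G))
  have hmem : ∀ i, f i ∈ centralizer ({a} : Set G) := by
    intro i
    rw [mem_centralizer_singleton_iff]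
    have := hf i
    rw [mem_bot] at this
    calc f i * a = (f i * a * (f i)⁻¹ * a⁻¹) * (a * f i) := by group
      _ = a * f i := by rw [this, one_mul]
  obtain ⟨i, j, hij, h⟩ := Fintype.exists_ne_map_eq_of_card_lt
    (fun i => (⟨f i, hmem i⟩ : centralizer ({a} : Set G)))
    (by rw [Fintype.card_fin, Nat.card_eq_fintype_card]; exact Nat.lt_succ_self _)
  refine ⟨i, j, hij, ?_⟩
  have h1 : f i = f j := congrArg Subtype.val h
  rw [h1, inv_mul_cancel]
  exact one_mem _

theorem centralizer_finite_of_few {G : Type*} [Group G] {a : G} {m : ℕ} {N : Subgroup G}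
    [N.Normal] (h : Few a m N) : (centralizer ({(a : G ⧸ N)} : Set (G ⧸ N)) : Set (G ⧸ N)).Finite := by
  by_contra hinf
  have hinf' : Infinite (centralizer ({(a : G ⧸ N)} : Set (G ⧸ N))) :=
    Set.infinite_coe_iff.2 hinf
  obtain ⟨e⟩ : Nonempty (Fin (m + 1) ↪ centralizer ({(a : G ⧸ N)} : Set (G ⧸ N))) :=
    ⟨(Fin.valEmbedding).trans (Infinite.natEmbedding _)⟩
  obtain ⟨i, j, hij, hN⟩ := h (fun i => ((e i : G ⧸ N)).out) (by
    intro i
    rw [← QuotientGroup.eq_one_iff]
    have h1 : (((e i : G ⧸ N).out : G) : G ⧸ N) = e i := QuotientGroup.out_eq' _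
    rw [QuotientGroup.mk_mul, QuotientGroup.mk_mul, QuotientGroup.mk_mul, QuotientGroup.mk_inv,
      QuotientGroup.mk_inv, h1]
    have h2 := mem_centralizer_singleton_iff.1 (e i).2
    rw [h2]
    group)
  apply hij
  apply e.injective
  apply Subtype.ext
  have h1 : (((e i : G ⧸ N).out : G) : G ⧸ N) = ((e j : G ⧸ N).out : G) := QuotientGroup.eq.2 hN
  rw [QuotientGroup.out_eq', QuotientGroup.out_eq'] at h1
  exact h1

/-- the family of good normal subgroups has a maximal member -/
theorem exists_maximal {G : Type*} [Group G] (a : G) (m : ℕ) (h0 : Few a m (⊥ : Subgroup G)) :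
    ∃ N : Subgroup G, Maximal (· ∈ {N : Subgroup G | N.Normal ∧ LFs N ∧ Few a m N}) N := by
  have hbot : (⊥ : Subgroup G) ∈ {N : Subgroup G | N.Normal ∧ LFs N ∧ Few a m N} := by
    refine ⟨inferInstance, ?_, h0⟩
    intro s _ hs
    have : closure s = ⊥ := by
      rw [eq_bot_iff]
      exact (closure_le _).2 hs
    rw [this]
    exact Set.finite_singleton _
  obtain ⟨N, -, hN⟩ := zorn_le_nonempty₀ {N : Subgroup G | N.Normal ∧ LFs N ∧ Few a m N} (by
    intro c hcs hc y hy
    have hne : c.Nonempty := ⟨y, hy⟩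
    refine ⟨sSup c, ⟨?_, ?_, ?_⟩, fun z hz => le_sSup hz⟩
    · constructor
      intro x hx g
      rw [mem_sSup_of_directedOn hne hc.directedOn] at hx ⊢
      obtain ⟨M, hM, hxM⟩ := hx
      exact ⟨M, hM, (hcs hM).1.conj_mem x hxM g⟩
    · intro s hs hsub
      obtain ⟨M, hM, hsM⟩ := exists_mem_of_chain hc hne hs hsub
      exact (hcs hM).2.1 s hs hsM
    · intro f hf
      obtain ⟨M, hM, hsM⟩ := exists_mem_of_chain hc hne
        (s := Set.range (fun i => f i * a * (f i)⁻¹ * a⁻¹)) (Set.finite_range _)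
        (by rintro _ ⟨i, rfl⟩; exact hf i)
      obtain ⟨i, j, hij, h⟩ := (hcs hM).2.2 f (fun i => hsM ⟨i, rfl⟩)
      exact ⟨i, j, hij, le_sSup hM h⟩) ⊥ hbot
  exact ⟨N, hN⟩

theorem main {G : Type*} [Group G] (a : G) (hC : (centralizer ({a} : Set G) : Set G).Finite)
    (hE : {g : G | ¬ Group.IsNilpotent (closure ({a, g⁻¹ * a * g} : Set G))}.Finite) :
    LFs (⊤ : Subgroup G) := by
  classical
  set m := Nat.card (centralizer ({a} : Set G)) with hm
  obtain ⟨N, ⟨hNn, hNL, hNF⟩, hNmax⟩ := exists_maximal a m (few_bot a hC)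
  by_cases hfin : Finite (G ⧸ N)
  · apply hNL.of_relIndex
    rw [relIndex_top_right]
    exact (finiteIndex_of_finite_quotient (H := N)).index_ne_zero
  exfalso
  have hinf : Infinite (G ⧸ N) := not_finite_iff_infinite.1 hfin
  have hC' := centralizer_finite_of_few (N := N) hNF
  have ha1 : (a : G ⧸ N) ≠ 1 := by
    intro h1
    rw [h1] at hC'
    apply hfin
    have : (centralizer ({(1 : G ⧸ N)} : Set (G ⧸ N)) : Set (G ⧸ N)) = Set.univ := by
      rw [Set.eq_univ_iff_forall]
      intro x
      rw [SetLike.mem_coe, mem_centralizer_singleton_iff, mul_one, one_mul]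
    rw [this] at hC'
    exact Set.finite_univ_iff.1 hC'
  have hE' : {g : G ⧸ N | ¬ ∃ c : G ⧸ N, c ≠ 1 ∧ c * a = a * c ∧
      c * (g⁻¹ * a * g) = (g⁻¹ * a * g) * c}.Finite := by
    refine (hE.image (QuotientGroup.mk : G → G ⧸ N)).subset ?_
    intro g hg
    obtain ⟨g, rfl⟩ := QuotientGroup.mk_surjective g
    refine ⟨g, ?_, rfl⟩
    intro hnil
    apply hg
    set M := closure ({a, g⁻¹ * a * g} : Set G) with hM
    have haM : a ∈ M := subset_closure (by simp)
    have hgM : g⁻¹ * a * g ∈ M := subset_closure (by simp)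
    set M' := M.map (QuotientGroup.mk' N) with hM'
    have hnil' : Group.IsNilpotent M' := Group.nilpotent_of_surjective
      ((QuotientGroup.mk' N).subgroupMap M) ((QuotientGroup.mk' N).subgroupMap_surjective M)
    have haM' : (a : G ⧸ N) ∈ M' := ⟨a, haM, rfl⟩
    have hnt : Nontrivial M' := ⟨⟨⟨(a : G ⧸ N), haM'⟩, 1, fun h => ha1 (congrArg Subtype.val h)⟩⟩
    obtain ⟨⟨c, hc⟩, hc1⟩ := Subgroup.ne_bot_iff_exists_ne_one.1
      (Group.IsNilpotent.center_ne_bot M')
    have hcomm := mem_center_iff.1 hc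
    have hgM' : (g : G ⧸ N)⁻¹ * a * g ∈ M' := ⟨g⁻¹ * a * g, hgM, rfl⟩
    refine ⟨(c : G ⧸ N), ?_, ?_, ?_⟩
    · intro h1
      apply hc1
      apply Subtype.ext
      apply Subtype.ext
      exact h1
    · exact (congrArg Subtype.val (hcomm ⟨_, haM'⟩)).symm
    · exact (congrArg Subtype.val (hcomm ⟨_, hgM'⟩)).symm
  obtain ⟨K, hKn, hKf, hKb⟩ := exists_finite_normal (a : G ⧸ N) hC' hE'
  set L := K.comap (QuotientGroup.mk' N) with hL
  have hLmem : L ∈ {N : Subgroup G | N.Normal ∧ LFs N ∧ Few a m N} := by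
    refine ⟨inferInstance, ?_, ?_⟩
    · apply hNL.of_relIndex
      have h1 : N = (⊥ : Subgroup (G ⧸ N)).comap (QuotientGroup.mk' N) := by
        rw [MonoidHom.comap_bot, QuotientGroup.ker_mk']
      nth_rewrite 1 [h1]
      rw [relIndex_comap, relIndex_bot_left, hL, map_comap_eq_self_of_surjective
        (QuotientGroup.mk'_surjective N)]
      exact Nat.card_pos.ne'
    · have hbot : Few (a : G ⧸ N) m (⊥ : Subgroup (G ⧸ N)) := by
        intro f hf
        obtain ⟨i, j, hij, h⟩ := hNF (fun i => (f i).out) (by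
          intro i
          rw [← QuotientGroup.eq_one_iff]
          have h1 := hf i
          rw [mem_bot] at h1
          rw [QuotientGroup.mk_mul, QuotientGroup.mk_mul, QuotientGroup.mk_mul,
            QuotientGroup.mk_inv, QuotientGroup.mk_inv, QuotientGroup.out_eq']
          exact h1)
        refine ⟨i, j, hij, ?_⟩
        have h1 : (((f i).out : G) : G ⧸ N) = ((f j).out : G) := QuotientGroup.eq.2 h
        rw [QuotientGroup.out_eq', QuotientGroup.out_eq'] at h1
        rw [mem_bot, h1, inv_mul_cancel]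
      have hK := hbot.of_finite K
      intro f hf
      obtain ⟨i, j, hij, h⟩ := hK (fun i => (f i : G ⧸ N)) (fun i => hf i)
      exact ⟨i, j, hij, h⟩
  have hNL' : N ≤ L := by
    intro x hx
    show (x : G ⧸ N) ∈ K
    rw [(QuotientGroup.eq_one_iff x).2 hx]
    exact one_mem _
  have hLN : L ≤ N := hNmax hLmem hNL'
  apply hKb
  rw [eq_bot_iff]
  intro x hx
  obtain ⟨x, rfl⟩ := QuotientGroup.mk_surjective x
  rw [mem_bot, QuotientGroup.eq_one_iff]
  exact hLN hx

end Pool.Agent.MP_904310

open Pool.Agent.MP_904310 in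
/-- Let `a` be an element of a group `G` with finite centralizer. If `⟨a, a ^ g⟩` is nilpotent for
all but finitely many `g`, then `G` is locally finite. -/
theorem Pool.Agent.Results.MP_904310_al.AlmostAllNilpotent.result
    {G : Type*} [Group G] (a : G)
    (hC : ((Subgroup.centralizer ({a} : Set G) : Subgroup G) : Set G).Finite)
    (hE : {g : G | ¬ Group.IsNilpotent (Subgroup.closure ({a, g⁻¹ * a * g} : Set G))}.Finite) :
    ∀ s : Set G, s.Finite → ((Subgroup.closure s : Subgroup G) : Set G).Finite :=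
  fun s hs => main a hC hE s hs (fun _ _ => Subgroup.mem_top _)
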