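import Pool.Agent.Lib_MP_904310_fr.MainP
import Pool.Agent.Lib_MP_904310_fr.MetabW

/-!
# Elements of odd prime order with finite centralizer almost all of whose conjugate pairs generate
  finite metabelian groups
-/

set_option autoImplicit false

open Pool.Agent.MP_904310f.Lab in
/-- Let `a` be an element of odd prime order `p` of a group `G` with finite centralizer. If for all
but finitely many `g` the subgroup generated by `a` and its conjugate by `g` is finite and
metabelian and contains no elements of order `p` commuting with `a` besides powers of `a`, then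
`G` is locally finite. -/
theorem Pool.Agent.Results.MP_904310_al.MetabelianPairs.result
    {G : Type*} [Group G] (p : ℕ) (hp : p.Prime) (hp2 : p ≠ 2) (a : G) (ha : orderOf a = p)
    (hC : ((Subgroup.centralizer ({a} : Set G) : Subgroup G) : Set G).Finite)
    (hE : {g : G | ¬ (((Subgroup.closure ({a, g⁻¹ * a * g} : Set G) : Subgroup G) : Set G).Finite ∧
      derivedSeries (Subgroup.closure ({a, g⁻¹ * a * g} : Set G)) 2 = ⊥ ∧
      ∀ c ∈ Subgroup.closure ({a, g⁻¹ * a * g} : Set G), c ^ p = 1 → c * a = a * c →
        c ∈ Subgroup.zpowers a)}.Finite) :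
    ∀ s : Set G, s.Finite → ((Subgroup.closure s : Subgroup G) : Set G).Finite := by
  have hap : a ^ p = 1 := by rw [← ha]; exact pow_orderOf_eq_one a
  have ha1 : a ≠ 1 := by
    rintro rfl
    rw [orderOf_one] at ha
    exact hp.one_lt.ne ha
  have hgd : {g : G | ¬ Gd a (g⁻¹ * a * g)}.Finite := by
    refine hE.subset ?_
    intro g hg h
    obtain ⟨hfin, hm, hc⟩ := h
    apply hg
    have hb : (g⁻¹ * a * g) ^ p = 1 := by rw [conj_pow', hap]; simp
    exact metab_weak hp a (g⁻¹ * a * g) hap ha1 hb hfin hm hc
  intro s hs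
  by_cases h5 : 5 ≤ p
  · exact mainP hp h5 hap ha1 hC hgd s hs
  · have hp3 : p = 3 := by
      have h2 := hp.two_le
      have h4 : p ≠ 4 := by
        rintro rfl
        exact absurd hp (by norm_num)
      omega
    subst hp3
    refine Pool.Agent.MP_904310f.main a hap ha1 hC (hgd.subset ?_) s hs
    intro g hg h
    apply hg
    obtain ⟨L, hL, i, hi⟩ := h
    refine ⟨L, hL.toFpf, ?_⟩
    rcases (by omega : i % 3 = 0 ∨ i % 3 = 1 ∨ i % 3 = 2) with h0 | h1 | h2
    · exfalso
      rw [pow_eq_pow_mod i hap, h0, pow_zero, inv_one, one_mul] at hi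
      have hb : (g⁻¹ * a * g) ^ 3 = 1 := by rw [conj_pow', hap]; simp
      have h3 := Krn.noP hp hp2 hap hL hi hb
      apply ha1
      have h4 : a = g * (g⁻¹ * a * g) * g⁻¹ := by group
      rw [h4, h3]; simp
    · left
      rwa [pow_eq_pow_mod i hap, h1, pow_one] at hi
    · right
      rw [pow_eq_pow_mod i hap, h2] at hi
      have h3 : (a ^ 2)⁻¹ = a := by
        rw [inv_eq_iff_mul_eq_one, ← pow_succ]; exact hap
      rwa [h3] at hi
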