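import Pool.Agent.Lib_MP_904310_fr.Main
import Pool.Agent.Lib_MP_904310_fr.Soluble

/-!
# Elements of order three with finite centralizer that are self-centralizing in almost all
  soluble subgroups generated by them and a conjugate
-/

set_option autoImplicit false

open Pool.Agent.MP_904310f in
/-- Let `a` be an element of order three of a group `G` with finite centralizer. If for all but
finitely many `g` the subgroup generated by `a` and its conjugate by `g` is finite and soluble
and contains no elements commuting with `a` besides the powers of `a`, then `G` is locally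
finite. -/
theorem Pool.Agent.Results.MP_904310_al.OrderThree.result
    {G : Type*} [Group G] (a : G) (ha : orderOf a = 3)
    (hC : ((Subgroup.centralizer ({a} : Set G) : Subgroup G) : Set G).Finite)
    (hE : {g : G | ¬ (((Subgroup.closure ({a, g⁻¹ * a * g} : Set G) : Subgroup G) : Set G).Finite ∧
      Group.IsSolvable (Subgroup.closure ({a, g⁻¹ * a * g} : Set G)) ∧
      ∀ c ∈ Subgroup.closure ({a, g⁻¹ * a * g} : Set G), c * a = a * c →
        c ∈ Subgroup.zpowers a)}.Finite) :
    ∀ s : Set G, s.Finite → ((Subgroup.closure s : Subgroup G) : Set G).Finite := by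
  have ha3 : a ^ 3 = 1 := by rw [← ha]; exact pow_orderOf_eq_one a
  have ha1 : a ≠ 1 := by
    rintro rfl
    simp at ha
  refine fun s hs => main a ha3 ha1 hC (hE.subset ?_) s hs
  intro g hg h
  obtain ⟨hfin, hsol, hc⟩ := h
  apply hg
  have hb : (g⁻¹ * a * g) ^ 3 = 1 := by
    have h1 : (g⁻¹ * a * g) ^ 3 = g⁻¹ * a ^ 3 * g := by simp [pow_succ, mul_assoc]
    rw [h1, ha3]; simp
  have hb1 : g⁻¹ * a * g ≠ 1 := by
    intro h1
    apply ha1
    have h2 : a = g * (g⁻¹ * a * g) * g⁻¹ := by group
    rw [h2, h1]; simp
  exact soluble_pair a (g⁻¹ * a * g) ha3 ha1 hb hb1 hfin hsol hc
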